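import Pool.Agent.Lib.P0a42ff.Defs

open Filter Topology Set

universe u

namespace Pool.Agent.Lib.P0a42ff

variable {X : Type u} [TopologicalSpace X]

theorem mem_nonIsolated {Y : Set X} {x : X} :
    x ∈ nonIsolated Y ↔ x ∈ Y ∧ ∃ᶠ y in 𝓝 x, y ≠ x ∧ y ∈ Y := by
  constructor
  · rintro ⟨h, hno⟩
    refine ⟨h, ?_⟩
    intro hev
    apply hno
    have hev' : ∀ᶠ y in 𝓝 x, ¬ (y ≠ x ∧ y ∈ Y) := hev
    obtain ⟨O, hO1, hO2, hO3⟩ := eventually_nhds_iff.1 hev'
    rw [isOpen_induced_iff]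
    refine ⟨O, hO2, ?_⟩
    ext ⟨z, hz⟩
    simp only [mem_preimage, mem_singleton_iff, Subtype.mk.injEq]
    constructor
    · intro hzO
      by_contra hc
      exact hO1 z hzO ⟨hc, hz⟩
    · intro e
      rw [e]; exact hO3
  · rintro ⟨h, hf⟩
    refine ⟨h, ?_⟩
    intro hop
    rw [isOpen_induced_iff] at hop
    obtain ⟨O, hO, hOe⟩ := hop
    have hxO : x ∈ O := by
      have : (⟨x, h⟩ : Y) ∈ Subtype.val ⁻¹' O := by rw [hOe]; rfl
      exact this
    apply hf
    filter_upwards [hO.mem_nhds hxO] with y hy hy2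
    have : (⟨y, hy2.2⟩ : Y) ∈ (Subtype.val ⁻¹' O : Set Y) := hy
    rw [hOe] at this
    exact hy2.1 (congrArg Subtype.val this)

theorem mem_cb {α : Ordinal.{u}} {x : X} :
    x ∈ cbDeriv X α ↔ ∀ β < α, x ∈ nonIsolated (cbDeriv X β) := by
  rw [cbDeriv]
  simp only [mem_iInter]

theorem cb_anti {α β : Ordinal.{u}} (h : β ≤ α) : cbDeriv X α ⊆ cbDeriv X β := by
  intro x hx
  rw [mem_cb] at hx ⊢
  intro γ hγ
  exact hx γ (hγ.trans_le h)

theorem cb_succ (α : Ordinal.{u}) : cbDeriv X (Order.succ α) = nonIsolated (cbDeriv X α) := by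
  apply Subset.antisymm
  · intro x hx
    exact mem_cb.1 hx α (Order.lt_succ α)
  · intro x hx
    rw [mem_cb]
    intro β hβ
    rcases (Order.lt_succ_iff.1 hβ).eq_or_lt with e | e
    · rw [e]; exact hx
    · exact mem_cb.1 (mem_nonIsolated.1 hx).1 β e

theorem exists_notMem (hX : Scattered X) (x : X) : ∃ α : Ordinal.{u}, x ∉ cbDeriv X (Order.succ α) := by
  by_contra hc
  push Not at hc
  have h1 : ∃ α : Ordinal.{u}, cbDeriv X α ⊆ cbDeriv X (Order.succ α) := by
    by_contra hc2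
    push Not at hc2
    have : ∀ α : Ordinal.{u}, ∃ y, y ∈ cbDeriv X α ∧ y ∉ cbDeriv X (Order.succ α) := by
      intro α
      exact not_subset.1 (hc2 α)
    choose f hf1 hf2 using this
    apply not_injective_of_ordinal f
    intro α β hαβ
    rcases lt_trichotomy α β with h | h | h
    · exact absurd (cb_anti (Order.succ_le_of_lt h) (hf1 β)) (by rw [← hαβ]; exact hf2 α)
    · exact h
    · exact absurd (cb_anti (Order.succ_le_of_lt h) (hf1 α)) (by rw [hαβ]; exact hf2 β)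
  obtain ⟨α, hα⟩ := h1
  obtain ⟨y, hy1, hy2⟩ := hX (cbDeriv X α) ⟨x, cb_anti (Order.le_succ α) (hc α)⟩
  rw [← cb_succ] at hy2
  exact hy2 (hα hy1)

/-- the Cantor–Bendixson rank -/
noncomputable def rk (x : X) : Ordinal.{u} := sInf {α | x ∉ cbDeriv X (Order.succ α)}

theorem notMem_succ_rk (hX : Scattered X) (x : X) : x ∉ cbDeriv X (Order.succ (rk x)) :=
  csInf_mem (s := {α : Ordinal.{u} | x ∉ cbDeriv X (Order.succ α)}) (exists_notMem hX x)

theorem mem_rk (x : X) : x ∈ cbDeriv X (rk x) := by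
  rw [mem_cb]
  intro β hβ
  rw [← cb_succ]
  by_contra hc
  have : rk x ≤ β := csInf_le' (s := {α : Ordinal.{u} | x ∉ cbDeriv X (Order.succ α)}) hc
  exact this.not_gt hβ

theorem mem_cb_iff (hX : Scattered X) {x : X} {α : Ordinal.{u}} : x ∈ cbDeriv X α ↔ α ≤ rk x := by
  constructor
  · intro h
    by_contra hc
    exact notMem_succ_rk hX x (cb_anti (Order.succ_le_of_lt (not_le.1 hc)) h)
  · intro h
    exact cb_anti h (mem_rk x)

theorem rk_loc (hX : Scattered X) (x : X) : ∀ᶠ y in 𝓝 x, y ≠ x → rk y < rk x := by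
  have h1 := notMem_succ_rk hX x
  rw [cb_succ, mem_nonIsolated] at h1
  have h2 : ¬ ∃ᶠ y in 𝓝 x, y ≠ x ∧ y ∈ cbDeriv X (rk x) := fun h => h1 ⟨mem_rk x, h⟩
  rw [not_frequently] at h2
  filter_upwards [h2] with y hy hne
  by_contra hc
  exact hy ⟨hne, (mem_cb_iff hX).2 (not_lt.1 hc)⟩

theorem rk_acc (hX : Scattered X) (x : X) (α : Ordinal.{u}) (h : α < rk x) :
    ∃ᶠ y in 𝓝 x, y ≠ x ∧ α ≤ rk y := by
  have h1 := (mem_nonIsolated.1 (mem_cb.1 (mem_rk x) α h)).2
  exact h1.mono (fun y hy => ⟨hy.1, (mem_cb_iff hX).1 hy.2⟩)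

theorem mem_cb_open {U : Set X} (hU : IsOpen U) (α : Ordinal.{u}) :
    ∀ y : U, y ∈ cbDeriv U α ↔ (y : X) ∈ cbDeriv X α := by
  induction α using WellFoundedLT.induction with
  | ind α IH =>
    intro y
    rw [mem_cb, mem_cb]
    refine forall₂_congr (fun β hβ => ?_)
    rw [mem_nonIsolated, mem_nonIsolated, IH β hβ y,
      ← map_nhds_subtype_coe_eq_nhds y.2 (hU.mem_nhds y.2), frequently_map]
    refine and_congr_right (fun _ => ?_)
    apply frequently_congr
    filter_upwards with z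
    rw [IH β hβ z]
    simp [Subtype.ext_iff]

theorem scattered_subtype (hX : Scattered X) {U : Set X} (hU : IsOpen U) : Scattered U := by
  intro S hS
  obtain ⟨x, hx, hx2⟩ := hX (Subtype.val '' S) (hS.image _)
  obtain ⟨y, hy, rfl⟩ := hx
  refine ⟨y, hy, ?_⟩
  intro hc
  apply hx2
  rw [mem_nonIsolated] at hc ⊢
  refine ⟨⟨y, hy, rfl⟩, ?_⟩
  rw [← map_nhds_subtype_coe_eq_nhds y.2 (hU.mem_nhds y.2), frequently_map]
  refine hc.2.mono ?_
  intro z hz
  exact ⟨fun e => hz.1 (Subtype.ext e), ⟨z, hz.2, rfl⟩⟩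

theorem unitary_of [CompactSpace X] [T2Space X] (hX : Scattered X) {U : Set X} (hU : IsClopen U)
    {x : X} (hx : x ∈ U) (h : ∀ y ∈ U, y ≠ x → rk y < rk x) : IsUnitary U ⟨x, hx⟩ := by
  refine ⟨isCompact_iff_compactSpace.1 hU.isClosed.isCompact, inferInstance,
    scattered_subtype hX hU.isOpen, rk x, ?_, ?_⟩
  · constructor
    · rintro α ⟨y, hy, -⟩
      rw [mem_cb_open hU.isOpen, mem_cb_iff hX] at hy
      refine hy.trans ?_
      by_cases e : (y : X) = x
      · rw [e]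
      · exact (h y y.2 e).le
    · intro β hβ
      apply hβ
      refine ⟨⟨x, hx⟩, ?_, ?_⟩
      · rw [mem_cb_open hU.isOpen]
        exact mem_rk x
      · rw [mem_cb_open hU.isOpen]
        exact notMem_succ_rk hX x
  · ext y
    rw [mem_cb_open hU.isOpen, mem_cb_iff hX, mem_singleton_iff]
    constructor
    · intro hy
      by_contra hc
      exact absurd (h y y.2 (fun e => hc (Subtype.ext e))) hy.not_gt
    · intro e
      rw [e]

end Pool.Agent.Lib.P0a42ff
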