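import Mathlib

open Filter Topology Set

universe u

namespace Pool.Agent.Lib.P0a42ff

/-- The non-isolated points of the subspace `Y` of `X` (as a subset of `X`). -/
def nonIsolated {X : Type u} [TopologicalSpace X] (Y : Set X) : Set X :=
  {x | ∃ h : x ∈ Y, ¬ IsOpen ({(⟨x, h⟩ : Y)} : Set Y)}

/-- The Cantor–Bendixson derivatives `X^[α] = ⋂_{β<α} (X^[β])^[1]` (so `X^[0] = X`). -/
noncomputable def cbDeriv (X : Type u) [TopologicalSpace X] (α : Ordinal.{u}) : Set X :=
  ⋂ (β : Ordinal.{u}) (_h : β < α), nonIsolated (cbDeriv X β)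
termination_by α

/-- `X` is scattered: every nonempty subspace has an isolated point. -/
def Scattered (X : Type u) [TopologicalSpace X] : Prop :=
  ∀ S : Set X, S.Nonempty → ∃ x ∈ S, x ∉ nonIsolated S

/-- `ht_X(x) = α`, i.e. `x ∈ X^[α] \ X^[α+1]`. -/
def HasHeight (X : Type u) [TopologicalSpace X] (x : X) (α : Ordinal.{u}) : Prop :=
  x ∈ cbDeriv X α ∧ x ∉ cbDeriv X (Order.succ α)

/-- `X` is a (compact Hausdorff, scattered) unitary space with end-point `e`:
`X^[ht X] = {e}` where `ht X` is the supremum of the heights of the points. -/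
def IsUnitary (X : Type u) [TopologicalSpace X] (e : X) : Prop :=
  CompactSpace X ∧ T2Space X ∧ Scattered X ∧
    ∃ h : Ordinal.{u}, IsLUB {α | ∃ x : X, HasHeight X x α} h ∧ cbDeriv X h = {e}

/-- `U` is a clopen selector for `X`. -/
structure IsClopenSelector {X : Type u} [TopologicalSpace X] (U : X → Set X) : Prop where
  clopen : ∀ x, IsClopen (U x)
  mem : ∀ x, x ∈ U x
  sub : ∀ x y, y ∈ U x → y ≠ x → U y ⊆ U x ∧ x ∉ U y

/-- `X` is canonically Skula. -/
def CanonicallySkula (X : Type u) [TopologicalSpace X] : Prop :=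
  CompactSpace X ∧ T2Space X ∧
    ∃ U : X → Set X, IsClopenSelector U ∧ ∀ x, ∃ h : x ∈ U x, IsUnitary (U x) ⟨x, h⟩

/-- Final subsets of a poset, as 0-1 functions. -/
def FS (P : Type u) [PartialOrder P] : Set (P → Bool) :=
  {F | ∀ x y, x ≤ y → F x = true → F y = true}

/-- Every antichain is finite. -/
def Narrow (P : Type u) [PartialOrder P] : Prop :=
  ∀ A : Set P, IsAntichain (· ≤ ·) A → A.Finite

/-- No subset of `P` (with the induced order) is order-isomorphic to `ℚ`. -/
def OrderScattered (P : Type u) [PartialOrder P] : Prop :=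
  ¬ ∃ S : Set P, Nonempty (S ≃o ℚ)

end Pool.Agent.Lib.P0a42ff
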