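import Mathlib

open Filter Topology Set

universe u v w

namespace Pool.Agent.Lib.P0a42ff

/-- A natural sum of two ordinals: the rank of the pair in the product order. -/
noncomputable def ns (a b : Ordinal.{w}) : Ordinal.{w+1} :=
  IsWellFounded.rank (α := Ordinal.{w} × Ordinal.{w}) (· < ·) (a, b)

theorem ns_le {a b : Ordinal.{w}} {c : Ordinal.{w+1}}
    (h : ∀ a' b', (a', b') < (a, b) → ns a' b' < c) : ns a b ≤ c := by
  unfold ns
  rw [IsWellFounded.rank_eq]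
  apply Ordinal.iSup_le
  rintro ⟨⟨a', b'⟩, hb⟩
  exact Order.succ_le_of_lt (h a' b' hb)

theorem ns_lt_ns {a b a' b' : Ordinal.{w}} (h : (a', b') < (a, b)) : ns a' b' < ns a b :=
  IsWellFounded.rank_lt_of_rel h

theorem ns_le_ns {a b a' b' : Ordinal.{w}} (h1 : a' ≤ a) (h2 : b' ≤ b) : ns a' b' ≤ ns a b := by
  rcases eq_or_lt_of_le (show ((a', b') : Ordinal.{w} × Ordinal.{w}) ≤ (a, b) from ⟨h1, h2⟩) with h | h
  · rw [Prod.mk.injEq] at h
    rw [h.1, h.2]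
  · exact (ns_lt_ns h).le

theorem ns_lt_ns_left {a b a' b' : Ordinal.{w}} (h1 : a' < a) (h2 : b' ≤ b) : ns a' b' < ns a b :=
  ns_lt_ns (Prod.mk_lt_mk.2 (Or.inl ⟨h1, h2⟩))

theorem ns_lt_ns_right {a b a' b' : Ordinal.{w}} (h1 : a' ≤ a) (h2 : b' < b) : ns a' b' < ns a b :=
  ns_lt_ns (Prod.mk_lt_mk.2 (Or.inr ⟨h1, h2⟩))

/-- The data we work with: a topological distributive lattice with separating clopen prime
filters `m p`, a well-order on the indices and a rank behaving like a Cantor–Bendixson rank. -/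
structure Data (X : Type u) [TopologicalSpace X] [DistribLattice X] (P : Type v) where
  m : P → Set X
  clopen : ∀ p, IsClopen (m p)
  le_iff : ∀ J I, J ≤ I ↔ ∀ p, J ∈ m p → I ∈ m p
  inf_iff : ∀ p J I, J ⊓ I ∈ m p ↔ J ∈ m p ∧ I ∈ m p
  sup_iff : ∀ p J I, J ⊔ I ∈ m p ↔ J ∈ m p ∨ I ∈ m p
  cinf : ∀ J, Continuous (fun K : X => K ⊓ J)
  csup : ∀ J, Continuous (fun K : X => K ⊔ J)
  rk : X → Ordinal.{w}
  loc : ∀ x, ∀ᶠ y in 𝓝 x, y ≠ x → rk y < rk x
  acc : ∀ x, ∀ α < rk x, ∃ᶠ y in 𝓝 x, y ≠ x ∧ α ≤ rk y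
  narrow : ∀ f : ℕ → P, ∃ i j, i < j ∧ (m (f i) ⊆ m (f j) ∨ m (f j) ⊆ m (f i))
  lt : P → P → Prop
  wf : WellFounded lt
  tri : ∀ p q, lt p q ∨ p = q ∨ lt q p
  tr : ∀ p q r, lt p q → lt q r → lt p r

namespace Data

variable {X : Type u} [TopologicalSpace X] [DistribLattice X] {P : Type v}

/-- The dual data. -/
def dual (D : Data.{u, v, w} X P) : Data.{u, v, w} Xᵒᵈ P where
  m p := {J | OrderDual.ofDual J ∉ D.m p}
  clopen p := (D.clopen p).compl
  le_iff J I := by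
    constructor
    · intro h p hJ hI
      exact hJ ((D.le_iff (OrderDual.ofDual I) (OrderDual.ofDual J)).1 h p hI)
    · intro h
      exact (D.le_iff (OrderDual.ofDual I) (OrderDual.ofDual J)).2
        (fun p hI => by
          by_contra hJ
          exact h p hJ hI)
  inf_iff p J I := by
    have h := D.sup_iff p (OrderDual.ofDual J) (OrderDual.ofDual I)
    change ¬ (OrderDual.ofDual J ⊔ OrderDual.ofDual I ∈ D.m p) ↔ _
    rw [h, not_or]
    rfl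
  sup_iff p J I := by
    have h := D.inf_iff p (OrderDual.ofDual J) (OrderDual.ofDual I)
    change ¬ (OrderDual.ofDual J ⊓ OrderDual.ofDual I ∈ D.m p) ↔ _
    rw [h, not_and_or]
    rfl
  cinf J := D.csup (OrderDual.ofDual J)
  csup J := D.cinf (OrderDual.ofDual J)
  rk J := D.rk (OrderDual.ofDual J)
  loc x := D.loc (OrderDual.ofDual x)
  acc x := D.acc (OrderDual.ofDual x)
  narrow f := by
    obtain ⟨i, j, hij, h | h⟩ := D.narrow f
    · exact ⟨i, j, hij, Or.inr (fun J hJ hJ' => hJ (h hJ'))⟩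
    · exact ⟨i, j, hij, Or.inl (fun J hJ hJ' => hJ (h hJ'))⟩
  lt := D.lt
  wf := D.wf
  tri := D.tri
  tr := D.tr

variable (D : Data.{u, v, w} X P)

/-- Supermodularity of the rank. -/
theorem sm_aux (c : Ordinal.{w} × Ordinal.{w}) : ∀ K J : X, c.1 ≤ D.rk K → c.2 ≤ D.rk J →
    ns c.1 c.2 ≤ ns (D.rk (K ⊓ J)) (D.rk (K ⊔ J)) := by
  induction c using WellFoundedLT.induction with
  | ind c IH =>
    obtain ⟨a, b⟩ := c
    intro K J hK hJ
    apply ns_le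
    intro a' b' hlt
    have IH' := IH (a', b') hlt
    simp only at hK hJ IH'
    have hlt' := Prod.mk_lt_mk.1 hlt
    rcases hlt' with ⟨ha, hb⟩ | ⟨ha, hb⟩
    · -- move K
      have h1 : ∃ᶠ y in 𝓝 K, y ≠ K ∧ a' ≤ D.rk y := D.acc K a' (ha.trans_le hK)
      have h2 : ∀ᶠ y in 𝓝 K, y ⊓ J ≠ K ⊓ J → D.rk (y ⊓ J) < D.rk (K ⊓ J) :=
        ((D.cinf J).tendsto K).eventually (D.loc (K ⊓ J))
      have h3 : ∀ᶠ y in 𝓝 K, y ⊔ J ≠ K ⊔ J → D.rk (y ⊔ J) < D.rk (K ⊔ J) :=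
        ((D.csup J).tendsto K).eventually (D.loc (K ⊔ J))
      obtain ⟨y, ⟨⟨hyK, hya⟩, h2y⟩, h3y⟩ := ((h1.and_eventually h2).and_eventually h3).exists
      refine (IH' y J hya (hb.trans hJ)).trans_lt ?_
      by_cases e1 : y ⊓ J = K ⊓ J
      · have e2 : y ⊔ J ≠ K ⊔ J := fun e2 => hyK (eq_of_inf_eq_sup_eq e1 e2)
        exact ns_lt_ns_right (by rw [e1]) (h3y e2)
      · refine ns_lt_ns_left (h2y e1) ?_
        by_cases e2 : y ⊔ J = K ⊔ J
        · rw [e2]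
        · exact (h3y e2).le
    · have h1 : ∃ᶠ y in 𝓝 J, y ≠ J ∧ b' ≤ D.rk y := D.acc J b' (hb.trans_le hJ)
      have h2 : ∀ᶠ y in 𝓝 J, y ⊓ K ≠ J ⊓ K → D.rk (y ⊓ K) < D.rk (J ⊓ K) :=
        ((D.cinf K).tendsto J).eventually (D.loc (J ⊓ K))
      have h3 : ∀ᶠ y in 𝓝 J, y ⊔ K ≠ J ⊔ K → D.rk (y ⊔ K) < D.rk (J ⊔ K) :=
        ((D.csup K).tendsto J).eventually (D.loc (J ⊔ K))
      obtain ⟨y, ⟨⟨hyK, hya⟩, h2y⟩, h3y⟩ := ((h1.and_eventually h2).and_eventually h3).exists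
      refine (IH' K y (ha.trans hK) hya).trans_lt ?_
      rw [inf_comm K y, sup_comm K y, inf_comm K J, sup_comm K J]
      by_cases e1 : y ⊓ K = J ⊓ K
      · have e2 : y ⊔ K ≠ J ⊔ K := fun e2 => hyK (eq_of_inf_eq_sup_eq e1 e2)
        exact ns_lt_ns_right (by rw [e1]) (h3y e2)
      · refine ns_lt_ns_left (h2y e1) ?_
        by_cases e2 : y ⊔ K = J ⊔ K
        · rw [e2]
        · exact (h3y e2).le

theorem sm (K J : X) : ns (D.rk K) (D.rk J) ≤ ns (D.rk (K ⊓ J)) (D.rk (K ⊔ J)) :=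
  D.sm_aux (D.rk K, D.rk J) K J le_rfl le_rfl

/-- if `rk (K ⊔ J) < rk J` then `rk K < rk (K ⊓ J)`. -/
theorem sm_lt {K J : X} (h : D.rk (K ⊔ J) < D.rk J) : D.rk K < D.rk (K ⊓ J) := by
  by_contra hc
  rw [not_lt] at hc
  exact absurd (D.sm K J) (not_le.2 (ns_lt_ns_right hc h))

/-- if `rk (K ⊔ J) ≤ rk J` then `rk K ≤ rk (K ⊓ J)`. -/
theorem sm_le {K J : X} (h : D.rk (K ⊔ J) ≤ D.rk J) : D.rk K ≤ D.rk (K ⊓ J) := by
  by_contra hc
  rw [not_le] at hc
  exact absurd (D.sm K J) (not_le.2 (ns_lt_ns_left hc h))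

/-- Peaks below `I`. -/
def Pk (I : X) : Set X := {K | K < I ∧ ∀ Z, K ≤ Z → Z ≤ I → D.rk Z ≤ D.rk K}

/-- Strict peaks below `I`. -/
def SPk (I : X) : Set X := {K | K < I ∧ ∀ Z, K < Z → Z ≤ I → D.rk Z < D.rk K}

/-- `p` is the least element of `I \ K`. -/
def Least (p : P) (I K : X) : Prop :=
  (I ∈ D.m p ∧ K ∉ D.m p) ∧ ∀ q, I ∈ D.m q → K ∉ D.m q → ¬ D.lt q p

/-- The set of requirements of `I`. -/
def F (I : X) : Set P :=
  {p | ∃ I₀, (I₀ = I ∨ I₀ ∈ D.SPk I) ∧ ∃ K ∈ D.Pk I₀, D.Least p I₀ K}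

theorem F_sub {I : X} {p : P} (h : p ∈ D.F I) : I ∈ D.m p := by
  obtain ⟨I₀, h0, K, hK, hL⟩ := h
  have hle : I₀ ≤ I := by
    rcases h0 with h0 | h0
    · exact h0.le
    · exact h0.1.le
  exact (D.le_iff I₀ I).1 hle p hL.1.1

theorem not_le_iff {J I : X} : ¬ J ≤ I ↔ ∃ p, J ∈ D.m p ∧ I ∉ D.m p := by
  rw [D.le_iff]
  push Not
  rfl

theorem exists_least {I K : X} (h : K < I) : ∃ p, D.Least p I K := by
  have h1 : {p | I ∈ D.m p ∧ K ∉ D.m p}.Nonempty := D.not_le_iff.1 h.not_ge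
  refine ⟨D.wf.min _ h1, D.wf.min_mem _ h1, ?_⟩
  intro q hq1 hq2
  exact D.wf.not_lt_min (x := q) {p | I ∈ D.m p ∧ K ∉ D.m p} ⟨hq1, hq2⟩

/-- (A) -/
theorem F_restrict {J I : X} (hJI : J ≤ I) {p : P} (hp : p ∈ D.F I) (hpJ : J ∈ D.m p) :
    p ∈ D.F J := by
  obtain ⟨I₀, h0, K, hK, hL⟩ := hp
  have hI₀ : I₀ ≤ I := by
    rcases h0 with h0 | h0
    · exact h0.le
    · exact h0.1.le
  refine ⟨I₀ ⊓ J, ?_, K ⊓ (I₀ ⊓ J), ?_, ?_⟩
  · by_cases e : I₀ ⊓ J = J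
    · exact Or.inl e
    right
    refine ⟨lt_of_le_of_ne inf_le_right e, ?_⟩
    intro Z hZ1 hZ2
    have hZI₀ : ¬ Z ≤ I₀ := fun h => hZ1.not_ge (le_inf h hZ2)
    have hne : I₀ ≠ I := by
      rintro rfl
      exact hZI₀ (hZ2.trans hJI)
    have hS : I₀ ∈ D.SPk I := h0.resolve_left hne
    have h1 : D.rk (Z ⊔ I₀) < D.rk I₀ := by
      apply hS.2 _ _ (sup_le (hZ2.trans hJI) hI₀)
      exact lt_of_le_of_ne le_sup_right (fun h => hZI₀ (by rw [h]; exact le_sup_left))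
    have h2 : Z ⊓ I₀ = I₀ ⊓ J := by
      apply le_antisymm
      · exact le_inf inf_le_right (inf_le_left.trans hZ2)
      · exact le_inf hZ1.le inf_le_left
    have := D.sm_lt h1
    rwa [h2] at this
  · have hpJ₀ : I₀ ⊓ J ∈ D.m p := (D.inf_iff _ _ _).2 ⟨hL.1.1, hpJ⟩
    refine ⟨lt_of_le_of_ne inf_le_right ?_, ?_⟩
    · intro h
      rw [← h] at hpJ₀
      exact hL.1.2 ((D.inf_iff _ _ _).1 hpJ₀).1
    · intro Z hZ1 hZ2
      have h1 : D.rk (Z ⊔ K) ≤ D.rk K :=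
        hK.2 _ le_sup_right (sup_le (hZ2.trans inf_le_left) hK.1.le)
      have h2 : Z ⊓ K = K ⊓ (I₀ ⊓ J) := by
        apply le_antisymm
        · exact le_inf inf_le_right (inf_le_left.trans hZ2)
        · exact le_inf hZ1 inf_le_left
      have := D.sm_le h1
      rwa [h2] at this
  · refine ⟨⟨(D.inf_iff _ _ _).2 ⟨hL.1.1, hpJ⟩, fun h => hL.1.2 ((D.inf_iff _ _ _).1 h).1⟩, ?_⟩
    intro q hq1 hq2
    apply hL.2 q ((D.inf_iff _ _ _).1 hq1).1
    intro hq3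
    exact hq2 ((D.inf_iff _ _ _).2 ⟨hq3, hq1⟩)

/-- (B) -/
theorem F_mono_SPk {J₀ J : X} (h : J₀ ∈ D.SPk J) : D.F J₀ ⊆ D.F J := by
  rintro p ⟨I₀, h0, K, hK, hL⟩
  refine ⟨I₀, ?_, K, hK, hL⟩
  right
  rcases h0 with h0 | h0
  · rw [h0]; exact h
  refine ⟨h0.1.trans h.1, ?_⟩
  intro Z hZ1 hZ2
  by_contra hc
  rw [not_lt] at hc
  have hsm := D.sm Z J₀
  have h1 : I₀ ≤ Z ⊓ J₀ := le_inf hZ1.le h0.1.le
  rcases eq_or_lt_of_le h1 with e1 | e1
  · rcases eq_or_lt_of_le (le_sup_right : J₀ ≤ Z ⊔ J₀) with e2 | e2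
    · -- Z ≤ J₀
      have : Z ≤ J₀ := by rw [e2]; exact le_sup_left
      have : Z = I₀ := by rw [e1]; exact (inf_eq_left.2 this).symm
      exact hZ1.ne' this
    · have h3 := h.2 _ e2 (sup_le hZ2 h.1.le)
      have := D.sm_lt h3
      rw [← e1] at this
      exact absurd this hc.not_gt
  · have h3 := h0.2 _ e1 inf_le_right
    rcases eq_or_lt_of_le (le_sup_right : J₀ ≤ Z ⊔ J₀) with e2 | e2
    · have := D.sm_le (K := Z) (J := J₀) (by rw [← e2])
      exact absurd (this.trans_lt h3) hc.not_gt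
    · have h4 := h.2 _ e2 (sup_le hZ2 h.1.le)
      have := D.sm_lt h4
      exact absurd (this.trans h3) hc.not_gt

/-- transitivity for peaks -/
theorem Pk_of {I₀ I K : X} (h0 : I₀ = I ∨ I₀ ∈ D.SPk I) (hK : K ∈ D.Pk I₀) : K ∈ D.Pk I := by
  rcases h0 with h0 | h0
  · rwa [← h0]
  refine ⟨hK.1.trans h0.1, ?_⟩
  intro Z hZ1 hZ2
  have h1 : D.rk (Z ⊓ I₀) ≤ D.rk K := hK.2 _ (le_inf hZ1 hK.1.le) inf_le_right
  have h2 : D.rk (Z ⊔ I₀) ≤ D.rk I₀ := by
    rcases eq_or_lt_of_le (le_sup_right : I₀ ≤ Z ⊔ I₀) with e2 | e2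
    · rw [← e2]
    · exact (h0.2 _ e2 (sup_le hZ2 h0.1.le)).le
  exact (D.sm_le h2).trans h1

theorem isClosed_ge (α : Ordinal.{w}) : IsClosed {x | α ≤ D.rk x} := by
  rw [← isOpen_compl_iff, isOpen_iff_mem_nhds]
  intro x hx
  have hx' : D.rk x < α := not_le.1 hx
  filter_upwards [D.loc x] with y hy
  have : D.rk y < α := by
    by_cases e : y = x
    · rw [e]; exact hx'
    · exact (hy e).trans hx'
  exact not_le.2 this

/-- maximum of the rank on compact sets -/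
theorem exists_max {S : Set X} (hS : IsCompact S) (hne : S.Nonempty) :
    ∃ x ∈ S, ∀ y ∈ S, D.rk y ≤ D.rk x := by
  by_contra hc
  push Not at hc
  obtain ⟨t, ht⟩ := hS.elim_finite_subcover_image (b := S) (c := fun y => {x | D.rk y ≤ D.rk x}ᶜ)
    (fun y _ => (D.isClosed_ge _).isOpen_compl)
    (by
      intro x hx
      obtain ⟨y, hy, hxy⟩ := hc x hx
      exact mem_biUnion hy (not_le.2 hxy))
  obtain ⟨htS, htf, htc⟩ := ht
  have htne : t.Nonempty := by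
    obtain ⟨x, hx⟩ := hne
    obtain ⟨y, hy, _⟩ := mem_iUnion₂.1 (htc hx)
    exact ⟨y, hy⟩
  obtain ⟨z, hz, hzmax⟩ := Set.exists_max_image t D.rk htf htne
  obtain ⟨y, hy, hzy⟩ := mem_iUnion₂.1 (htc (htS hz))
  exact hzy (hzmax y hy)

include D in
theorem isClosed_le (I : X) : IsClosed {Z | Z ≤ I} := by
  have : {Z | Z ≤ I} = ⋂ p, {Z | Z ∈ D.m p → I ∈ D.m p} := by
    ext Z
    simp only [mem_iInter]
    exact D.le_iff Z I
  rw [this]
  apply isClosed_iInter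
  intro p
  by_cases h : I ∈ D.m p
  · simp [h]
  · simp only [h, imp_false]
    exact (D.clopen p).compl.isClosed

include D in
theorem isClosed_ge' (I : X) : IsClosed {Z | I ≤ Z} := by
  have : {Z | I ≤ Z} = ⋂ p, {Z | I ∈ D.m p → Z ∈ D.m p} := by
    ext Z
    simp only [mem_iInter]
    exact D.le_iff I Z
  rw [this]
  apply isClosed_iInter
  intro p
  by_cases h : I ∈ D.m p
  · simp only [h, forall_const]
    exact (D.clopen p).isClosed
  · simp [h]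

/-- (C) -/
theorem exists_F [CompactSpace X] {K I : X} (h : K < I) (hr : D.rk I ≤ D.rk K) :
    ∃ p ∈ D.F I, K ∉ D.m p := by
  let S : Set X := ({Z | K ≤ Z} ∩ {Z | Z ≤ I}) ∩ ({Z | D.rk I ≤ D.rk Z} ∩ {I}ᶜ)
  have hSc : IsClosed ({Z | D.rk I ≤ D.rk Z} ∩ {I}ᶜ) := by
    rw [← isOpen_compl_iff, isOpen_iff_mem_nhds]
    intro x hx
    by_cases e : x = I
    · subst e
      filter_upwards [D.loc x] with y hy hy'
      exact absurd (hy hy'.2) hy'.1.not_gt
    · have hx' : D.rk x < D.rk I := by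
        by_contra hc
        exact hx ⟨not_lt.1 hc, e⟩
      filter_upwards [D.loc x] with y hy hy'
      by_cases e' : y = x
      · rw [e'] at hy'
        exact absurd hy'.1 hx'.not_ge
      · exact absurd ((hy e').trans hx') (not_lt.2 hy'.1)
  have hS : IsCompact S := (((D.isClosed_ge' K).inter (D.isClosed_le I)).inter hSc).isCompact
  have hKS : K ∈ S := ⟨⟨le_rfl, h.le⟩, hr, h.ne⟩
  obtain ⟨K', hK', hmax⟩ := D.exists_max hS ⟨K, hKS⟩
  have hK'I : K' < I := lt_of_le_of_ne hK'.1.2 hK'.2.2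
  have hPk : K' ∈ D.Pk I := by
    refine ⟨hK'I, ?_⟩
    intro Z hZ1 hZ2
    by_cases e : Z = I
    · rw [e]; exact hK'.2.1
    by_cases hZr : D.rk I ≤ D.rk Z
    · exact hmax Z ⟨⟨hK'.1.1.trans hZ1, hZ2⟩, hZr, e⟩
    · exact (not_le.1 hZr).le.trans hK'.2.1
  obtain ⟨p, hp⟩ := D.exists_least hK'I
  refine ⟨p, ⟨I, Or.inl rfl, K', hPk, hp⟩, ?_⟩
  intro hpK
  exact hp.1.2 ((D.le_iff K K').1 hK'.1.1 p hpK)

/-- (D) -/
theorem F_finite [CompactSpace X] (I : X) :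
    ∃ s : Finset P, (∀ p ∈ s, p ∈ D.F I) ∧
      ∀ J, (∀ p ∈ s, J ∈ D.m p) → ∀ p ∈ D.F I, J ∈ D.m p := by
  by_contra hcon
  push Not at hcon
  -- the sequence
  obtain ⟨f, hf1, hf2⟩ := exists_seq_of_forall_finset_exists (fun p => p ∈ D.F I)
    (fun p q => ¬ D.m p ⊆ D.m q) (by
      intro s hs
      obtain ⟨J, hJ, p, hp, hpJ⟩ := hcon s hs
      exact ⟨p, hp, fun q hq hsub => hpJ (hsub (hJ q hq))⟩)
  -- first Ramsey step
  let r1 : P → P → Prop := fun p q => D.m q ⊆ D.m p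
  have : IsTrans P r1 := ⟨fun a b c hab hbc => Subset.trans hbc hab⟩
  obtain ⟨g, hg | hg⟩ := exists_increasing_or_nonincreasing_subseq r1 f
  swap
  · obtain ⟨i, j, hij, h | h⟩ := D.narrow (fun n => f (g n))
    · exact hf2 _ _ (g.strictMono hij) h
    · exact hg i j hij h
  have : IsTrans P D.lt := ⟨fun a b c hab hbc => D.tr a b c hab hbc⟩
  obtain ⟨g', hg' | hg'⟩ := exists_increasing_or_nonincreasing_subseq D.lt (fun n => f (g n))
  swap
  · -- infinite descending sequence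
    have hdesc : ∀ n m, n < m → D.lt (f (g (g' m))) (f (g (g' n))) := by
      intro n m hnm
      rcases D.tri (f (g (g' n))) (f (g (g' m))) with h | h | h
      · exact absurd h (hg' n m hnm)
      · exact absurd (le_of_eq (congrArg D.m h)) (hf2 _ _ (g.strictMono (g'.strictMono hnm)))
      · exact h
    have hw := D.wf
    obtain ⟨p, ⟨n, hn⟩, hmin⟩ := hw.has_min (Set.range (fun n => f (g (g' n)))) ⟨_, 0, rfl⟩
    have := hdesc n (n+1) (Nat.lt_succ_self n)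
    simp only at hn
    rw [hn] at this
    exact hmin _ ⟨n+1, rfl⟩ this
  -- now the main sequence
  let p : ℕ → P := fun n => f (g (g' n))
  have hpF : ∀ n, p n ∈ D.F I := fun n => hf1 _
  have hpm : ∀ i n, i < n → D.m (p n) ⊆ D.m (p i) := fun i n hin => hg _ _ (g'.strictMono hin)
  have hplt : ∀ i n, i < n → D.lt (p i) (p n) := fun i n hin => hg' _ _ hin
  choose I₀ hI₀ K hK hL using hpF
  have hKP : ∀ n, K n ∈ D.Pk I := fun n => D.Pk_of (hI₀ n) (hK n)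
  have hpK : ∀ i n, i < n → K n ∈ D.m (p i) := by
    intro i n hin
    by_contra hc
    exact (hL n).2 (p i) (hpm i n hin (hL n).1.1) hc (hplt i n hin)
  -- ultrafilter limit
  obtain ⟨L, -, hLim⟩ := (isCompact_univ (X := X)).ultrafilter_le_nhds
    ((hyperfilter ℕ).map K) (by simp)
  have hTend : Tendsto K (hyperfilter ℕ : Filter ℕ) (𝓝 L) := hLim
  have hLm : ∀ i, L ∈ D.m (p i) := by
    intro i
    apply (D.clopen (p i)).isClosed.mem_of_tendsto hTend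
    have : ∀ᶠ n in (hyperfilter ℕ : Filter ℕ), i < n := by
      apply Filter.Eventually.filter_mono (Nat.hyperfilter_le_atTop)
      exact eventually_gt_atTop i
    exact this.mono (fun n hn => hpK i n hn)
  have hLI : L ≤ I := (D.isClosed_le I).mem_of_tendsto hTend
    (Eventually.of_forall (fun n => (hKP n).1.le))
  have hev : ∀ᶠ n in (hyperfilter ℕ : Filter ℕ), K n ⊓ L ≠ L → D.rk (K n ⊓ L) < D.rk L := by
    have h1 : Tendsto (fun n => K n ⊓ L) (hyperfilter ℕ : Filter ℕ) (𝓝 (L ⊓ L)) :=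
      ((D.cinf L).tendsto L).comp hTend
    rw [inf_idem] at h1
    exact h1.eventually (D.loc L)
  obtain ⟨n, hn⟩ := hev.exists
  have hle : L ≤ K n := by
    by_contra hc
    have hne : K n ⊓ L ≠ L := fun h => hc (by rw [← h]; exact inf_le_left)
    have h1 := hn hne
    have h2 : D.rk (K n ⊔ L) ≤ D.rk (K n) := (hKP n).2 _ le_sup_left (sup_le (hKP n).1.le hLI)
    have h3 := D.sm_le (K := L) (J := K n) (by rw [sup_comm]; exact h2)
    rw [inf_comm] at h3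
    exact absurd h1 h3.not_gt
  exact (hL n).1.2 ((D.le_iff _ _).1 hle _ (hLm n))

/-- half of the selector -/
def UF (I : X) : Set X := {J | ∀ p ∈ D.F I, J ∈ D.m p}

theorem UF_clopen [CompactSpace X] (I : X) : IsClopen (D.UF I) := by
  obtain ⟨s, hs1, hs2⟩ := D.F_finite I
  have : D.UF I = ⋂ p ∈ s, D.m p := by
    ext J
    simp only [mem_iInter, UF]
    constructor
    · intro h p hp
      exact h p (hs1 p hp)
    · intro h
      exact hs2 J h
  rw [this]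
  exact isClopen_biInter_finset (fun p _ => D.clopen p)

/-- The selector. -/
def U (I : X) : Set X :=
  {J | J ∈ D.UF I ∧ OrderDual.toDual J ∈ D.dual.UF (OrderDual.toDual I)}

theorem U_clopen [CompactSpace X] (I : X) : IsClopen (D.U I) := by
  have h1 := D.UF_clopen I
  have : CompactSpace Xᵒᵈ := inferInstanceAs (CompactSpace X)
  have h2 := D.dual.UF_clopen (OrderDual.toDual I)
  have h3 : IsClopen {J : X | OrderDual.toDual J ∈ D.dual.UF (OrderDual.toDual I)} :=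
    h2.preimage continuous_toDual
  exact h1.inter h3

theorem mem_U (I : X) : I ∈ D.U I :=
  ⟨fun _ hp => D.F_sub hp, fun _ hp => D.dual.F_sub hp⟩

theorem inf_lt [CompactSpace X] {W I : X} (hW : W ∈ D.UF I) (hne : W ⊓ I ≠ I) :
    D.rk (W ⊓ I) < D.rk I := by
  by_contra hc
  obtain ⟨p, hp, hpn⟩ := D.exists_F (lt_of_le_of_ne inf_le_right hne) (not_lt.1 hc)
  exact hpn ((D.inf_iff _ _ _).2 ⟨hW p hp, D.F_sub hp⟩)

theorem sup_lt [CompactSpace X] {W I : X}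
    (hW : OrderDual.toDual W ∈ D.dual.UF (OrderDual.toDual I)) (hne : W ⊔ I ≠ I) :
    D.rk (W ⊔ I) < D.rk I := by
  have : CompactSpace Xᵒᵈ := inferInstanceAs (CompactSpace X)
  exact D.dual.inf_lt hW hne

/-- canonicity -/
theorem rk_lt [CompactSpace X] {W I : X} (hW : W ∈ D.U I) (hne : W ≠ I) : D.rk W < D.rk I := by
  by_cases e1 : W ⊓ I = I
  · have hIW : I ≤ W := by rw [← e1]; exact inf_le_left
    have e2 : W ⊔ I = W := sup_eq_left.2 hIW
    have := D.sup_lt hW.2 (by rw [e2]; exact hne)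
    rwa [e2] at this
  by_cases e2 : W ⊔ I = I
  · have hWI : W ≤ I := by rw [← e2]; exact le_sup_left
    have e3 : W ⊓ I = W := inf_eq_left.2 hWI
    have := D.inf_lt hW.1 (by rw [e3]; exact hne)
    rwa [e3] at this
  · have h1 := D.inf_lt hW.1 e1
    have h2 := D.sup_lt hW.2 e2
    exact (D.sm_lt h2).trans h1

theorem F_sub_F [CompactSpace X] {J I : X} (hJ : J ∈ D.U I) : D.F I ⊆ D.F J := by
  intro p hp
  have hpI : I ∈ D.m p := D.F_sub hp
  have hpJ : J ∈ D.m p := hJ.1 p hp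
  by_cases hle : J ≤ I
  · exact D.F_restrict hle hp hpJ
  have h0 : p ∈ D.F (J ⊓ I) := D.F_restrict inf_le_right hp ((D.inf_iff _ _ _).2 ⟨hpJ, hpI⟩)
  refine D.F_mono_SPk ?_ h0
  refine ⟨lt_of_le_of_ne inf_le_left (fun h => hle (by rw [← h]; exact inf_le_right)), ?_⟩
  intro Z hZ1 hZ2
  have hZI : ¬ Z ≤ I := fun h => hZ1.not_ge (le_inf hZ2 h)
  have hne : Z ⊔ I ≠ I := fun h => hZI (by rw [← h]; exact le_sup_left)
  have hmem : Z ⊔ I ∈ D.U I := by
    constructor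
    · intro q hq
      exact (D.sup_iff _ _ _).2 (Or.inr (D.F_sub hq))
    · intro q hq
      have h1 : I ∉ D.m q := D.dual.F_sub hq
      have h2 : J ∉ D.m q := hJ.2 q hq
      change ¬ (Z ⊔ I ∈ D.m q)
      rw [D.sup_iff]
      rintro (h | h)
      · exact h2 ((D.le_iff _ _).1 hZ2 q h)
      · exact h1 h
  have h1 := D.rk_lt hmem hne
  have h2 : Z ⊓ I = J ⊓ I := by
    apply le_antisymm
    · exact inf_le_inf_right _ hZ2
    · exact le_inf hZ1.le inf_le_right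
  have := D.sm_lt h1
  rwa [h2] at this

theorem dual_mem {J I : X} (hJ : J ∈ D.U I) :
    OrderDual.toDual J ∈ D.dual.U (OrderDual.toDual I) := by
  refine ⟨hJ.2, ?_⟩
  have h := hJ.1
  intro p hp
  -- double dual
  have hpF : p ∈ D.F I := by
    obtain ⟨I₀, h0, K, hK, hL⟩ := hp
    refine ⟨OrderDual.ofDual (OrderDual.ofDual I₀), ?_, OrderDual.ofDual (OrderDual.ofDual K), ?_, ?_⟩
    · rcases h0 with h0 | h0
      · exact Or.inl h0
      · exact Or.inr ⟨h0.1, fun Z h1 h2 => h0.2 (OrderDual.toDual (OrderDual.toDual Z)) h1 h2⟩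
    · exact ⟨hK.1, fun Z h1 h2 => hK.2 (OrderDual.toDual (OrderDual.toDual Z)) h1 h2⟩
    · refine ⟨⟨not_not.1 hL.1.1, fun h => hL.1.2 (not_not.2 h)⟩, ?_⟩
      intro q hq1 hq2
      exact hL.2 q (not_not.2 hq1) (fun h => hq2 (not_not.1 h))
  exact not_not.2 (h p hpF)

theorem U_sub [CompactSpace X] {J I : X} (hJ : J ∈ D.U I) : D.U J ⊆ D.U I := by
  have : CompactSpace Xᵒᵈ := inferInstanceAs (CompactSpace X)
  intro Z hZ
  exact ⟨fun p hp => hZ.1 p (D.F_sub_F hJ hp),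
    fun p hp => hZ.2 p (D.dual.F_sub_F (D.dual_mem hJ) hp)⟩

theorem main [CompactSpace X] : ∃ U : X → Set X, (∀ x, IsClopen (U x)) ∧ (∀ x, x ∈ U x) ∧
    (∀ x y, y ∈ U x → y ≠ x → U y ⊆ U x ∧ x ∉ U y) ∧
    (∀ x y, y ∈ U x → y ≠ x → D.rk y < D.rk x) := by
  refine ⟨D.U, D.U_clopen, D.mem_U, ?_, fun x y hy hne => D.rk_lt hy hne⟩
  intro x y hy hne
  refine ⟨D.U_sub hy, ?_⟩
  intro hx
  exact absurd (D.rk_lt hy hne) (D.rk_lt hx hne.symm).not_gt

end Data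

end Pool.Agent.Lib.P0a42ff
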