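import Pool.Agent.Lib.P0a42ff.Scattered
import Pool.Agent.Lib.P0a42ff.Lattice

open Filter Topology Set

universe u

namespace Pool.Agent.Lib.P0a42ff

variable {P : Type u} [PartialOrder P]

/-- The lattice of final subsets. -/
@[reducible] def latFS : DistribLattice (FS P) where
  sup J I := ⟨fun p => J.1 p || I.1 p, by
    intro x y hxy h
    simp only [Bool.or_eq_true] at h ⊢
    rcases h with h | h
    · exact Or.inl (J.2 x y hxy h)
    · exact Or.inr (I.2 x y hxy h)⟩
  inf J I := ⟨fun p => J.1 p && I.1 p, by
    intro x y hxy h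
    simp only [Bool.and_eq_true] at h ⊢
    exact ⟨J.2 x y hxy h.1, I.2 x y hxy h.2⟩⟩
  le J I := ∀ p, J.1 p = true → I.1 p = true
  lt J I := (∀ p, J.1 p = true → I.1 p = true) ∧ ¬ (∀ p, I.1 p = true → J.1 p = true)
  le_refl J p h := h
  le_trans J I K h1 h2 p h := h2 p (h1 p h)
  lt_iff_le_not_ge J I := Iff.rfl
  le_antisymm J I h1 h2 := by
    apply Subtype.ext
    funext p
    rw [Bool.eq_iff_iff]
    exact ⟨h1 p, h2 p⟩
  le_sup_left J I p h := by simp [h]
  le_sup_right J I p h := by simp [h]
  sup_le J I K h1 h2 p h := by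
    simp only [Bool.or_eq_true] at h
    rcases h with h | h
    · exact h1 p h
    · exact h2 p h
  inf_le_left J I p h := by
    simp only [Bool.and_eq_true] at h
    exact h.1
  inf_le_right J I p h := by
    simp only [Bool.and_eq_true] at h
    exact h.2
  le_inf J I K h1 h2 p h := by
    simp only [Bool.and_eq_true]
    exact ⟨h1 p h, h2 p h⟩
  le_sup_inf J I K p h := by
    have h' : ((J.1 p || I.1 p) && (J.1 p || K.1 p)) = true := h
    change (J.1 p || (I.1 p && K.1 p)) = true
    revert h'
    cases J.1 p <;> cases I.1 p <;> cases K.1 p <;> simp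

attribute [local instance] latFS

theorem compactSpace_FS : CompactSpace (FS P) := by
  have hc : IsClosed (FS P) := by
    have : FS P = ⋂ (x : P) (y : P) (_ : x ≤ y), {F : P → Bool | F x = true → F y = true} := by
      ext F
      simp only [mem_iInter]
      rfl
    rw [this]
    refine isClosed_iInter fun x => isClosed_iInter fun y => isClosed_iInter fun _ => ?_
    have h : Continuous (fun F : P → Bool => (F x, F y)) :=
      (continuous_apply x).prodMk (continuous_apply y)
    exact (isClosed_discrete {b : Bool × Bool | b.1 = true → b.2 = true}).preimage h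
  exact isCompact_iff_compactSpace.1 hc.isCompact

theorem continuous_op (op : Bool → Bool → Bool) (J : FS P)
    (h : ∀ K : FS P, (fun p => op (K.1 p) (J.1 p)) ∈ FS P) :
    Continuous (fun K : FS P => (⟨fun p => op (K.1 p) (J.1 p), h K⟩ : FS P)) := by
  apply Continuous.subtype_mk
  apply continuous_pi
  intro p
  have h1 : Continuous (fun K : FS P => K.1 p) := (continuous_apply p).comp continuous_subtype_val
  exact (continuous_of_discreteTopology (f := fun b : Bool => op b (J.1 p))).comp h1

/-- The data for `FS P`. -/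
noncomputable def theData (hP : Narrow P) (hQ : OrderScattered P) : Data.{u, u, u} (FS P) P where
  m p := {J | J.1 p = true}
  clopen p := isClopen_coord p true
  le_iff J I := Iff.rfl
  inf_iff p J I := by
    change (J.1 p && I.1 p) = true ↔ _
    rw [Bool.and_eq_true]
    rfl
  sup_iff p J I := by
    change (J.1 p || I.1 p) = true ↔ _
    rw [Bool.or_eq_true]
    rfl
  cinf J := continuous_op (fun a b => a && b) J _
  csup J := continuous_op (fun a b => a || b) J _
  rk := rk
  loc := rk_loc (scattered_FS hP hQ)
  acc := rk_acc (scattered_FS hP hQ)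
  narrow f := by
    obtain ⟨i, j, hij, h | h⟩ := narrow_seq hP f
    · exact ⟨i, j, hij, Or.inl (fun J hJ => J.2 _ _ h hJ)⟩
    · exact ⟨i, j, hij, Or.inr (fun J hJ => J.2 _ _ h hJ)⟩
  lt := WellOrderingRel
  wf := WellOrderingRel.isWellOrder.wf
  tri p q := trichotomous_of WellOrderingRel p q
  tr p q r := trans_of WellOrderingRel

theorem canonicallySkula (P : Type u) [PartialOrder P] (hP : Narrow P) (hQ : OrderScattered P) :
    CanonicallySkula (FS P) := by
  have hcomp : CompactSpace (FS P) := compactSpace_FS
  refine ⟨hcomp, inferInstance, ?_⟩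
  obtain ⟨U, h1, h2, h3, h4⟩ := (theData hP hQ).main
  exact ⟨U, ⟨h1, h2, h3⟩, fun x => ⟨h2 x, unitary_of (scattered_FS hP hQ) (h1 x) (h2 x)
    (fun y hy hne => h4 x y hy hne)⟩⟩

end Pool.Agent.Lib.P0a42ff
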