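import Pool.Agent.Lib.P0a42ff.CB

open Filter Topology Set

universe u

namespace Pool.Agent.Lib.P0a42ff

section tree

variable {P : Type u} [PartialOrder P]

/-- walk down the tree of states -/
def walk {G : Set (Set P)} (L R : G → G) : G → List Bool → G
  | s, [] => s
  | s, (false :: w) => walk L R (L s) w
  | s, (true :: w) => walk L R (R s) w

omit [PartialOrder P] in
theorem walk_append {G : Set (Set P)} (L R : G → G) (s : G) (v w : List Bool) :
    walk L R s (v ++ w) = walk L R (walk L R s v) w := by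
  induction v generalizing s with
  | nil => rfl
  | cons b v IH =>
    cases b
    · exact IH (L s)
    · exact IH (R s)

theorem exists_rat_of_family (G : Set (Set P)) (hne : G.Nonempty)
    (hG : ∀ Q ∈ G, ∃ p ∈ Q, (Q ∩ Iio p) ∈ G ∧ (Q ∩ Ioi p) ∈ G) :
    ∃ S : Set P, Nonempty (S ≃o ℚ) := by
  have hG' : ∀ s : G, ∃ p, ∃ l r : G, p ∈ s.1 ∧ l.1 = s.1 ∩ Iio p ∧ r.1 = s.1 ∩ Ioi p := by
    intro s
    obtain ⟨p, hp, h1, h2⟩ := hG s.1 s.2
    exact ⟨p, ⟨_, h1⟩, ⟨_, h2⟩, hp, rfl, rfl⟩
  choose pt L R hpt hL hR using hG'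
  let val : G → List Bool → P := fun s w => pt (walk L R s w)
  have hval : ∀ (s : G) (w : List Bool), val s w ∈ s.1 := by
    intro s w
    induction w generalizing s with
    | nil => exact hpt s
    | cons b w IH =>
      cases b
      · have := IH (L s)
        rw [hL] at this
        exact this.1
      · have := IH (R s)
        rw [hR] at this
        exact this.1
  have hvalL : ∀ (s : G) (w : List Bool), val s (false :: w) < pt s := by
    intro s w
    have := hval (L s) w
    rw [hL] at this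
    exact this.2
  have hvalR : ∀ (s : G) (w : List Bool), pt s < val s (true :: w) := by
    intro s w
    have := hval (R s) w
    rw [hR] at this
    exact this.2
  have htri : ∀ (s : G) (w w' : List Bool), val s w ≤ val s w' ∨ val s w' ≤ val s w := by
    intro s w
    induction w generalizing s with
    | nil =>
      intro w'
      rcases w' with _ | ⟨b, w'⟩
      · left; exact le_rfl
      · cases b
        · right; exact (hvalL s w').le
        · left; exact (hvalR s w').le
    | cons b w IH =>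
      intro w'
      rcases w' with _ | ⟨b', w'⟩
      · cases b
        · left; exact (hvalL s w).le
        · right; exact (hvalR s w).le
      · cases b <;> cases b'
        · exact IH (L s) w'
        · left; exact ((hvalL s w).trans (hvalR s w')).le
        · right; exact ((hvalL s w').trans (hvalR s w)).le
        · exact IH (R s) w'
  have hdown : ∀ (s : G) (w : List Bool), val s (w ++ [false]) < val s w := by
    intro s w
    change pt (walk L R s (w ++ [false])) < _
    rw [walk_append]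
    exact hvalL (walk L R s w) []
  have hup : ∀ (s : G) (w : List Bool), val s w < val s (w ++ [true]) := by
    intro s w
    change _ < pt (walk L R s (w ++ [true]))
    rw [walk_append]
    exact hvalR (walk L R s w) []
  have hdense : ∀ (s : G) (w w' : List Bool), val s w < val s w' →
      ∃ v, val s w < val s v ∧ val s v < val s w' := by
    intro s w
    induction w generalizing s with
    | nil =>
      intro w' h
      rcases w' with _ | ⟨b, w'⟩
      · exact absurd h (lt_irrefl _)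
      · cases b
        · exact absurd h (hvalL s w').not_gt
        · exact ⟨true :: (w' ++ [false]), hvalR s _, hdown (R s) w'⟩
    | cons b w IH =>
      intro w' h
      rcases w' with _ | ⟨b', w'⟩
      · cases b
        · exact ⟨false :: (w ++ [true]), hup (L s) w, hvalL s _⟩
        · exact absurd h (hvalR s w).not_gt
      · cases b <;> cases b'
        · obtain ⟨v, h1, h2⟩ := IH (L s) w' h
          exact ⟨false :: v, h1, h2⟩
        · exact ⟨[], hvalL s w, hvalR s w'⟩
        · exact absurd h ((hvalL s w').trans (hvalR s w)).not_gt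
        · obtain ⟨v, h1, h2⟩ := IH (R s) w' h
          exact ⟨true :: v, h1, h2⟩
  obtain ⟨Q0, hQ0⟩ := hne
  let s0 : G := ⟨Q0, hQ0⟩
  let S : Set P := Set.range (val s0)
  refine ⟨S, ?_⟩
  classical
  let lin : LinearOrder S :=
    { (inferInstance : PartialOrder S) with
      le_total := by
        rintro ⟨_, w, rfl⟩ ⟨_, w', rfl⟩
        exact htri s0 w w'
      toDecidableLE := Classical.decRel _ }
  have h1 : Countable S := (Set.countable_range (val s0)).to_subtype
  have h2 : Nonempty S := ⟨⟨_, [], rfl⟩⟩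
  have h3 : DenselyOrdered S := by
    constructor
    rintro ⟨_, w, rfl⟩ ⟨_, w', rfl⟩ h
    obtain ⟨v, hv1, hv2⟩ := hdense s0 w w' h
    exact ⟨⟨_, v, rfl⟩, hv1, hv2⟩
  have h4 : NoMinOrder S := by
    constructor
    rintro ⟨_, w, rfl⟩
    exact ⟨⟨_, _, rfl⟩, hdown s0 w⟩
  have h5 : NoMaxOrder S := by
    constructor
    rintro ⟨_, w, rfl⟩
    exact ⟨⟨_, _, rfl⟩, hup s0 w⟩
  exact Order.iso_of_countable_dense S ℚ

end tree

section FS

variable {P : Type u} [PartialOrder P]

theorem narrow_seq (hP : Narrow P) (f : ℕ → P) : ∃ i j, i < j ∧ (f i ≤ f j ∨ f j ≤ f i) := by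
  by_contra hc
  push Not at hc
  have hinj : Function.Injective f := by
    intro i j hij
    rcases lt_trichotomy i j with h | h | h
    · exact absurd hij.le (hc i j h).1
    · exact h
    · exact absurd hij.ge (hc j i h).1
  have hanti : IsAntichain (· ≤ ·) (Set.range f) := by
    rintro _ ⟨i, rfl⟩ _ ⟨j, rfl⟩ hne
    rcases lt_trichotomy i j with h | h | h
    · exact (hc i j h).1
    · exact absurd (congrArg f h) hne
    · exact (hc j i h).2
  exact (Set.infinite_range_of_injective hinj) (hP _ hanti)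

/-- dense in itself -/
def DI (Y : Set (FS P)) : Prop := ∀ x ∈ Y, ∃ᶠ y in 𝓝 x, y ≠ x ∧ y ∈ Y

/-- `p` splits `Y` -/
def Splits (p : P) (Y : Set (FS P)) : Prop :=
  (∃ J ∈ Y, J.1 p = true) ∧ (∃ J ∈ Y, J.1 p = false)

/-- good pairs -/
def Good (Q : Set P) (Y : Set (FS P)) : Prop :=
  Y.Nonempty ∧ DI Y ∧ ∀ Y' ⊆ Y, Y'.Nonempty → DI Y' → ∃ q ∈ Q, Splits q Y'

theorem DI.inter {Y O : Set (FS P)} (hY : DI Y) (hO : IsOpen O) : DI (Y ∩ O) := by
  intro x hx
  refine ((hY x hx.1).and_eventually (hO.mem_nhds hx.2)).mono ?_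
  rintro y ⟨⟨h1, h2⟩, h3⟩
  exact ⟨h1, h2, h3⟩

theorem Splits.mono {p : P} {Y Y' : Set (FS P)} (h : Splits p Y) (hsub : Y ⊆ Y') : Splits p Y' := by
  obtain ⟨⟨J, hJ, hJp⟩, ⟨K, hK, hKp⟩⟩ := h
  exact ⟨⟨J, hsub hJ, hJp⟩, ⟨K, hsub hK, hKp⟩⟩

theorem exists_splits {Y : Set (FS P)} (hne : Y.Nonempty) (hY : DI Y) : ∃ p, Splits p Y := by
  obtain ⟨x, hx⟩ := hne
  obtain ⟨y, hyx, hy⟩ := (hY x hx).exists
  have : ∃ p, y.1 p ≠ x.1 p := by
    by_contra hc
    push Not at hc
    exact hyx (Subtype.ext (funext hc))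
  obtain ⟨p, hp⟩ := this
  refine ⟨p, ?_⟩
  cases h1 : y.1 p <;> cases h2 : x.1 p
  · rw [h1, h2] at hp; exact absurd rfl hp
  · exact ⟨⟨x, hx, h2⟩, ⟨y, hy, h1⟩⟩
  · exact ⟨⟨y, hy, h1⟩, ⟨x, hx, h2⟩⟩
  · rw [h1, h2] at hp; exact absurd rfl hp

theorem isClopen_coord (p : P) (b : Bool) : IsClopen {J : FS P | J.1 p = b} := by
  have h1 : Continuous (fun J : FS P => J.1 p) := (continuous_apply p).comp continuous_subtype_val
  exact (isClopen_discrete ({b} : Set Bool)).preimage h1

theorem good_step (hP : Narrow P) {Q : Set P} {Y : Set (FS P)} (h : Good Q Y) :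
    ∃ p ∈ Q, (∃ Y1, Good (Q ∩ Iio p) Y1) ∧ (∃ Y2, Good (Q ∩ Ioi p) Y2) := by
  by_contra hc
  push Not at hc
  have hstep : ∀ s : {Y₁ : Set (FS P) // Y₁ ⊆ Y ∧ Y₁.Nonempty ∧ DI Y₁}, ∃ p ∈ Q, Splits p s.1 ∧
      ∃ t : {Y₁ : Set (FS P) // Y₁ ⊆ Y ∧ Y₁.Nonempty ∧ DI Y₁}, t.1 ⊆ s.1 ∧
        ∀ q ∈ Q, (q ≤ p ∨ p ≤ q) → ¬ Splits q t.1 := by
    rintro ⟨Y₁, hsub, hne, hDI⟩
    obtain ⟨p, hp, hsp⟩ := h.2.2 Y₁ hsub hne hDI
    refine ⟨p, hp, hsp, ?_⟩
    obtain ⟨⟨J, hJ, hJp⟩, ⟨K, hK, hKp⟩⟩ := hsp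
    by_cases h1 : Good (Q ∩ Iio p) (Y₁ ∩ {J | J.1 p = true})
    · have h2 := hc p hp ⟨_, h1⟩ (Y₁ ∩ {J | J.1 p = false})
      have hDI2 : DI (Y₁ ∩ {J | J.1 p = false}) := hDI.inter (isClopen_coord p false).isOpen
      unfold Good at h2
      push Not at h2
      obtain ⟨Y', hY', hne', hDI', hq⟩ := h2 ⟨K, hK, hKp⟩ hDI2
      refine ⟨⟨Y', hY'.trans (inter_subset_left.trans hsub), hne', hDI'⟩,
        hY'.trans inter_subset_left, ?_⟩
      rintro q hqQ hcmp hs
      have hle : q ≤ p := by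
        rcases hcmp with hcmp | hcmp
        · exact hcmp
        · rcases eq_or_lt_of_le hcmp with e | e
          · exact e.ge
          · exact absurd hs (hq q ⟨hqQ, e⟩)
      obtain ⟨⟨J', hJ', hJ'q⟩, -⟩ := hs
      have e1 := J'.2 q p hle hJ'q
      have e2 : J'.1 p = false := (hY' hJ').2
      rw [e2] at e1
      exact Bool.noConfusion e1
    · have hDI2 : DI (Y₁ ∩ {J | J.1 p = true}) := hDI.inter (isClopen_coord p true).isOpen
      unfold Good at h1
      push Not at h1
      obtain ⟨Y', hY', hne', hDI', hq⟩ := h1 ⟨J, hJ, hJp⟩ hDI2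
      refine ⟨⟨Y', hY'.trans (inter_subset_left.trans hsub), hne', hDI'⟩,
        hY'.trans inter_subset_left, ?_⟩
      rintro q hqQ hcmp hs
      have hle : p ≤ q := by
        rcases hcmp with hcmp | hcmp
        · rcases eq_or_lt_of_le hcmp with e | e
          · exact e.ge
          · exact absurd hs (hq q ⟨hqQ, e⟩)
        · exact hcmp
      obtain ⟨-, ⟨J', hJ', hJ'q⟩⟩ := hs
      have e1 := J'.2 p q hle (hY' hJ').2
      rw [hJ'q] at e1
      exact Bool.noConfusion e1
  choose pt hptQ hpts nx hnx1 hnx2 using hstep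
  let st : ℕ → {Y₁ : Set (FS P) // Y₁ ⊆ Y ∧ Y₁.Nonempty ∧ DI Y₁} := fun n =>
    Nat.rec ⟨Y, Subset.rfl, h.1, h.2.1⟩ (fun _ s => nx s) n
  have hst : ∀ n, st (n+1) = nx (st n) := fun n => rfl
  have hanti : ∀ i n, i ≤ n → (st n).1 ⊆ (st i).1 := by
    intro i n hin
    induction n, hin using Nat.le_induction with
    | base => exact Subset.rfl
    | succ n _ IH =>
      rw [hst]
      exact (hnx1 (st n)).trans IH
  obtain ⟨i, j, hij, hcmp⟩ := narrow_seq hP (fun n => pt (st n))
  have h1 : Splits (pt (st j)) (st (i+1)).1 := (hpts (st j)).mono (hanti (i+1) j hij)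
  rw [hst] at h1
  exact hnx2 (st i) (pt (st j)) (hptQ _) hcmp.symm h1

theorem scattered_FS (hP : Narrow P) (hQ : OrderScattered P) : Scattered (FS P) := by
  intro S hS
  by_contra hc
  push Not at hc
  apply hQ
  apply exists_rat_of_family {Q : Set P | ∃ Y, Good Q Y}
  · refine ⟨univ, S, hS, ?_, ?_⟩
    · intro x hx
      exact (mem_nonIsolated.1 (hc x hx)).2
    · intro Y' _ hne hDI
      obtain ⟨p, hp⟩ := exists_splits hne hDI
      exact ⟨p, mem_univ _, hp⟩
  · rintro Q ⟨Y, hY⟩
    exact good_step hP hY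

end FS

end Pool.Agent.Lib.P0a42ff
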